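import Mathlib

set_option autoImplicit false

namespace Pool.Agent.Work.MP_1b6add_co

/-- `Loses S`: the player to move loses from the position `S` (a finite family of finite sets) of
the game in which a move picks a remaining set and deletes it together with all its remaining
supersets, and the player who makes the last move wins. -/
def Loses {α : Type} [DecidableEq α] (S : Finset (Finset α)) : Prop :=
  ∀ x (_ : x ∈ S), ¬ Loses (S.filter (fun y => ¬ x ⊆ y))
termination_by S.card
decreasing_by
  rename_i h
  exact Finset.card_lt_card (Finset.filter_ssubset.2 ⟨x, h, fun h' => h' (Finset.Subset.refl x)⟩)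

theorem loses_iff {α : Type} [DecidableEq α] (S : Finset (Finset α)) :
    Loses S ↔ ∀ x ∈ S, ¬ Loses (S.filter (fun y => ¬ x ⊆ y)) := by
  rw [Loses]

theorem card_step {α : Type} [DecidableEq α] {S : Finset (Finset α)} {x : Finset α} (h : x ∈ S) :
    (S.filter (fun y => ¬ x ⊆ y)).card < S.card :=
  Finset.card_lt_card (Finset.filter_ssubset.2 ⟨x, h, fun h' => h' (Finset.Subset.refl x)⟩)

/-- Invariance under relabelling. -/
theorem loses_image {α β : Type} [DecidableEq α] [DecidableEq β] (f : α → β) (A : Finset α)
    (hf : ∀ a ∈ A, ∀ b ∈ A, f a = f b → a = b) :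
    ∀ (m : ℕ) (S : Finset (Finset α)), S.card = m → (∀ s ∈ S, s ⊆ A) →
      (Loses (S.image (fun s => s.image f)) ↔ Loses S) := by
  intro m
  induction m using Nat.strong_induction_on with
  | _ m ih =>
    intro S hm hS
    have hsub : ∀ x ∈ S, ∀ s ∈ S, (x.image f ⊆ s.image f ↔ x ⊆ s) := by
      intro x hx s hs
      constructor
      · intro h a ha
        obtain ⟨b, hb, hba⟩ := Finset.mem_image.1 (h (Finset.mem_image_of_mem f ha))
        have := hf b (hS s hs hb) a (hS x hx ha) hba
        rwa [← this]
      · intro h
        exact Finset.image_subset_image h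
    have key : ∀ x ∈ S, (S.image (fun s => s.image f)).filter (fun y => ¬ x.image f ⊆ y)
        = (S.filter (fun y => ¬ x ⊆ y)).image (fun s => s.image f) := by
      intro x hx
      ext y
      simp only [Finset.mem_filter, Finset.mem_image]
      constructor
      · rintro ⟨⟨s, hs, rfl⟩, h⟩
        exact ⟨s, ⟨hs, fun h' => h ((hsub x hx s hs).2 h')⟩, rfl⟩
      · rintro ⟨s, ⟨hs, h⟩, rfl⟩
        exact ⟨⟨s, hs, rfl⟩, fun h' => h ((hsub x hx s hs).1 h')⟩
    rw [loses_iff, loses_iff S]
    constructor
    · intro h x hx hl
      have h1 := h (x.image f) (Finset.mem_image.2 ⟨x, hx, rfl⟩)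
      rw [key x hx] at h1
      exact h1 ((ih _ (hm ▸ card_step hx) _ rfl
        (fun s hs => hS s (Finset.mem_of_mem_filter s hs))).2 hl)
    · intro h y hy
      obtain ⟨x, hx, rfl⟩ := Finset.mem_image.1 hy
      rw [key x hx]
      intro hl
      exact h x hx ((ih _ (hm ▸ card_step hx) _ rfl
        (fun s hs => hS s (Finset.mem_of_mem_filter s hs))).1 hl)

/-- Two elements which are interchangeable and never together can be removed. -/
theorem star_reduction {α : Type} [DecidableEq α] (a b : α) (_hab : a ≠ b) :
    ∀ (m : ℕ) (S : Finset (Finset α)), S.card = m →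
      (∀ s ∈ S, s.image (Equiv.swap a b) ∈ S) → (∀ s ∈ S, ¬ (a ∈ s ∧ b ∈ s)) →
      (Loses S ↔ Loses (S.filter (fun s => a ∉ s ∧ b ∉ s))) := by
  intro m
  induction m using Nat.strong_induction_on with
  | _ m ih =>
    intro S hm h1 h2
    set W := Equiv.swap a b with hW
    have hWW : ∀ s : Finset α, (s.image W).image W = s := by
      intro s
      rw [Finset.image_image]
      have : (W ∘ W : α → α) = id := by
        ext x
        simp [hW]
      rw [this, Finset.image_id]
    have hWsub : ∀ s t : Finset α, s ⊆ t → s.image W ⊆ t.image W := fun s t h =>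
      Finset.image_subset_image h
    have hfix : ∀ s : Finset α, a ∉ s → b ∉ s → s.image W = s := by
      intro s ha hb
      ext x
      simp only [Finset.mem_image]
      constructor
      · rintro ⟨y, hy, rfl⟩
        have hya : y ≠ a := fun h => ha (h ▸ hy)
        have hyb : y ≠ b := fun h => hb (h ▸ hy)
        rw [hW, Equiv.swap_apply_of_ne_of_ne hya hyb]
        exact hy
      · intro hx
        have hya : x ≠ a := fun h => ha (h ▸ hx)
        have hyb : x ≠ b := fun h => hb (h ▸ hx)
        exact ⟨x, hx, by rw [hW, Equiv.swap_apply_of_ne_of_ne hya hyb]⟩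
    have hma : ∀ s : Finset α, (a ∈ s.image W ↔ b ∈ s) := by
      intro s
      simp only [Finset.mem_image]
      constructor
      · rintro ⟨y, hy, hya⟩
        have : y = b := by
          rw [hW] at hya
          have := congrArg (Equiv.swap a b) hya
          simpa using this
        rwa [← this]
      · intro h
        exact ⟨b, h, by simp [hW]⟩
    have hmb : ∀ s : Finset α, (b ∈ s.image W ↔ a ∈ s) := by
      intro s
      simp only [Finset.mem_image]
      constructor
      · rintro ⟨y, hy, hya⟩
        have : y = a := by
          rw [hW] at hya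
          have := congrArg (Equiv.swap a b) hya
          simpa using this
        rwa [← this]
      · intro h
        exact ⟨a, h, by simp [hW]⟩
    -- moves avoiding a and b
    have hmove : ∀ x ∈ S, a ∉ x → b ∉ x →
        (Loses (S.filter (fun y => ¬ x ⊆ y)) ↔
          Loses ((S.filter (fun s => a ∉ s ∧ b ∉ s)).filter (fun y => ¬ x ⊆ y))) := by
      intro x hx hax hbx
      have := ih _ (hm ▸ card_step hx) (S.filter (fun y => ¬ x ⊆ y)) rfl
        (by
          intro s hs
          rw [Finset.mem_filter] at hs ⊢
          refine ⟨h1 s hs.1, fun h => hs.2 ?_⟩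
          have := hWsub _ _ h
          rw [hWW, hfix x hax hbx] at this
          exact this)
        (fun s hs => h2 s (Finset.mem_of_mem_filter s hs))
      rw [this, Finset.filter_comm]
    -- moves meeting {a, b}
    have hpair : ∀ x ∈ S, (a ∈ x ∨ b ∈ x) →
        Loses (S.filter (fun s => a ∉ s ∧ b ∉ s)) → ¬ Loses (S.filter (fun y => ¬ x ⊆ y)) := by
      intro x hx hx' hL
      rw [loses_iff]
      push Not
      have hnx : ¬ x ⊆ x.image W := by
        intro h
        rcases hx' with ha | hb
        · have := h ha
          rw [hma] at this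
          exact h2 x hx ⟨ha, this⟩
        · have := h hb
          rw [hmb] at this
          exact h2 x hx ⟨this, hb⟩
      have hy : x.image W ∈ S.filter (fun y => ¬ x ⊆ y) :=
        Finset.mem_filter.2 ⟨h1 x hx, hnx⟩
      refine ⟨x.image W, hy, ?_⟩
      have hlt : ((S.filter (fun y => ¬ x ⊆ y)).filter (fun y => ¬ x.image W ⊆ y)).card < m := by
        have h3 := card_step hy
        have h4 := card_step hx
        omega
      have := ih _ hlt ((S.filter (fun y => ¬ x ⊆ y)).filter (fun y => ¬ x.image W ⊆ y)) rfl
        (by
          intro s hs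
          simp only [Finset.mem_filter] at hs ⊢
          refine ⟨⟨h1 s hs.1.1, fun h => hs.2 ?_⟩, fun h => hs.1.2 ?_⟩
          · have := hWsub _ _ h
            rwa [hWW] at this
          · have := hWsub _ _ h
            rwa [hWW, hWW] at this)
        (fun s hs => h2 s (Finset.mem_of_mem_filter s (Finset.mem_of_mem_filter s hs)))
      rw [this]
      have heq : ((S.filter (fun y => ¬ x ⊆ y)).filter (fun y => ¬ x.image W ⊆ y)).filter
          (fun s => a ∉ s ∧ b ∉ s) = S.filter (fun s => a ∉ s ∧ b ∉ s) := by
        ext s
        simp only [Finset.mem_filter]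
        constructor
        · rintro ⟨⟨⟨hs, -⟩, -⟩, h⟩
          exact ⟨hs, h⟩
        · rintro ⟨hs, h⟩
          refine ⟨⟨⟨hs, fun h' => ?_⟩, fun h' => ?_⟩, h⟩
          · rcases hx' with ha | hb
            · exact h.1 (h' ha)
            · exact h.2 (h' hb)
          · rcases hx' with ha | hb
            · exact h.2 (h' ((hmb x).2 ha))
            · exact h.1 (h' ((hma x).2 hb))
      rw [heq]
      exact hL
    constructor
    · intro hL
      rw [loses_iff]
      intro x hx
      rw [Finset.mem_filter] at hx
      rw [← hmove x hx.1 hx.2.1 hx.2.2]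
      exact (loses_iff S).1 hL x hx.1
    · intro hL
      rw [loses_iff]
      intro x hx
      by_cases hx' : a ∈ x ∨ b ∈ x
      · exact hpair x hx hx' hL
      · push Not at hx'
        rw [hmove x hx hx'.1 hx'.2]
        exact (loses_iff _).1 hL x (Finset.mem_filter.2 ⟨hx, hx'⟩)

end Pool.Agent.Work.MP_1b6add_co
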