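import Pool.Agent.Work.MP_1b6add_co.Core

set_option autoImplicit false

namespace Pool.Agent.Work.MP_1b6add_co

/-- Nonempty subsets of `A` with at most `k` elements. -/
def G (A : Finset ℕ) (k : ℕ) : Finset (Finset ℕ) :=
  A.powerset.filter (fun s => s.Nonempty ∧ s.card ≤ k)

/-- `G A k` after the opening move `J`. -/
def Y (A : Finset ℕ) (k : ℕ) (J : Finset ℕ) : Finset (Finset ℕ) :=
  (G A k).filter (fun s => ¬ J ⊆ s)

theorem mem_G {A : Finset ℕ} {k : ℕ} {s : Finset ℕ} :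
    s ∈ G A k ↔ s ⊆ A ∧ s.Nonempty ∧ s.card ≤ k := by
  simp [G]

theorem mem_Y {A : Finset ℕ} {k : ℕ} {J s : Finset ℕ} :
    s ∈ Y A k J ↔ (s ⊆ A ∧ s.Nonempty ∧ s.card ≤ k) ∧ ¬ J ⊆ s := by
  simp [Y, mem_G]

theorem loses_G_iff (A : Finset ℕ) (k : ℕ) :
    Loses (G A k) ↔ ∀ J : Finset ℕ, J ⊆ A → J.Nonempty → J.card ≤ k → ¬ Loses (Y A k J) := by
  rw [loses_iff]
  constructor
  · intro h J h1 h2 h3
    exact h J (mem_G.2 ⟨h1, h2, h3⟩)
  · intro h J hJ
    obtain ⟨h1, h2, h3⟩ := mem_G.1 hJ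
    exact h J h1 h2 h3

/-- A smaller opening is reachable from a larger one. -/
theorem sub_step {A : Finset ℕ} {k : ℕ} {I J : Finset ℕ} (hJA : J ⊆ A) (hJ : J.card ≤ k)
    (hIJ : I ⊂ J) (hI : I.Nonempty) (h : Loses (Y A k J)) : ¬ Loses (Y A k I) := by
  have hmem : I ∈ Y A k J := mem_Y.2 ⟨⟨hIJ.1.trans hJA, hI,
    (Finset.card_le_card hIJ.1).trans hJ⟩, hIJ.2⟩
  have heq : (Y A k J).filter (fun s => ¬ I ⊆ s) = Y A k I := by
    ext s
    rw [Finset.mem_filter, mem_Y, mem_Y]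
    constructor
    · rintro ⟨⟨h1, -⟩, h2⟩
      exact ⟨h1, h2⟩
    · rintro ⟨h1, h2⟩
      exact ⟨⟨h1, fun h' => h2 (hIJ.1.trans h')⟩, h2⟩
  have := (loses_iff _).1 h I hmem
  rwa [heq] at this

/-- Removing a vertex outside `J`. -/
theorem vertex_step {A : Finset ℕ} {k : ℕ} {J : Finset ℕ} {x : ℕ} (hx : x ∈ A) (hxJ : x ∉ J)
    (hJ : J.Nonempty) (hk : 1 ≤ k) (h : Loses (Y A k J)) : ¬ Loses (Y (A.erase x) k J) := by
  have hmem : {x} ∈ Y A k J := by
    refine mem_Y.2 ⟨⟨Finset.singleton_subset_iff.2 hx, Finset.singleton_nonempty x, by simpa using hk⟩,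
      fun h' => ?_⟩
    obtain ⟨y, hy⟩ := hJ
    have := Finset.mem_singleton.1 (h' hy)
    exact hxJ (this ▸ hy)
  have heq : (Y A k J).filter (fun s => ¬ {x} ⊆ s) = Y (A.erase x) k J := by
    ext s
    rw [Finset.mem_filter, mem_Y, mem_Y, Finset.singleton_subset_iff]
    constructor
    · rintro ⟨⟨⟨h1, h3⟩, h4⟩, h2⟩
      exact ⟨⟨fun y hy => Finset.mem_erase.2 ⟨fun hh => h2 (hh ▸ hy), h1 hy⟩, h3⟩, h4⟩
    · rintro ⟨⟨h1, h3⟩, h4⟩
      exact ⟨⟨⟨fun y hy => Finset.mem_of_mem_erase (h1 hy), h3⟩, h4⟩,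
        fun hh => (Finset.mem_erase.1 (h1 hh)).1 rfl⟩
  have := (loses_iff _).1 h {x} hmem
  rwa [heq] at this

theorem swap_image_subset {a b : ℕ} {s B : Finset ℕ} (ha : a ∈ B) (hb : b ∈ B) (hs : s ⊆ B) :
    s.image (Equiv.swap a b) ⊆ B := by
  intro y hy
  obtain ⟨x, hx, rfl⟩ := Finset.mem_image.1 hy
  by_cases h1 : x = a
  · subst h1
    simpa using hb
  · by_cases h2 : x = b
    · subst h2
      simpa using ha
    · rw [Equiv.swap_apply_of_ne_of_ne h1 h2]
      exact hs hx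

theorem image_swap_swap (a b : ℕ) (s : Finset ℕ) :
    (s.image (Equiv.swap a b)).image (Equiv.swap a b) = s := by
  rw [Finset.image_image]
  have : (Equiv.swap a b ∘ Equiv.swap a b : ℕ → ℕ) = id := by
    ext x
    simp
  rw [this, Finset.image_id]

theorem swap_fix {a b : ℕ} {s : Finset ℕ} (ha : a ∉ s) (hb : b ∉ s) :
    s.image (Equiv.swap a b) = s := by
  have key : ∀ y ∈ s, Equiv.swap a b y = y := by
    intro y hy
    have hya : y ≠ a := fun h => ha (h ▸ hy)
    have hyb : y ≠ b := fun h => hb (h ▸ hy)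
    exact Equiv.swap_apply_of_ne_of_ne hya hyb
  ext x
  simp only [Finset.mem_image]
  constructor
  · rintro ⟨y, hy, rfl⟩
    rw [key y hy]
    exact hy
  · intro hx
    exact ⟨x, hx, key x hx⟩

/-- Removing a pair outside `J`. -/
theorem pair_step {A : Finset ℕ} {k : ℕ} {J : Finset ℕ} {a b : ℕ} (ha : a ∈ A) (hb : b ∈ A)
    (hab : a ≠ b) (haJ : a ∉ J) (hbJ : b ∉ J) (hJ : J.Nonempty) (hk : 2 ≤ k)
    (h : Loses (Y A k J)) : ¬ Loses (Y ((A.erase a).erase b) k J) := by
  have hmem : {a, b} ∈ Y A k J := by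
    refine mem_Y.2 ⟨⟨?_, ⟨a, by simp⟩, ?_⟩, fun h' => ?_⟩
    · intro y hy
      rw [Finset.mem_insert, Finset.mem_singleton] at hy
      rcases hy with rfl | rfl
      · exact ha
      · exact hb
    · rw [Finset.card_pair hab]
      exact hk
    · obtain ⟨y, hy⟩ := hJ
      have := h' hy
      rw [Finset.mem_insert, Finset.mem_singleton] at this
      rcases this with rfl | rfl
      · exact haJ hy
      · exact hbJ hy
  have h1 := (loses_iff _).1 h {a, b} hmem
  have hsub2 : ∀ s : Finset ℕ, {a, b} ⊆ s ↔ a ∈ s ∧ b ∈ s := by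
    intro s
    rw [Finset.insert_subset_iff, Finset.singleton_subset_iff]
  rw [star_reduction a b hab _ _ rfl] at h1
  · have heq : ((Y A k J).filter (fun s => ¬ {a, b} ⊆ s)).filter (fun s => a ∉ s ∧ b ∉ s)
        = Y ((A.erase a).erase b) k J := by
      ext s
      rw [Finset.mem_filter, Finset.mem_filter, mem_Y, mem_Y]
      constructor
      · rintro ⟨⟨⟨⟨h1, h3⟩, h4⟩, -⟩, h5, h6⟩
        exact ⟨⟨fun y hy => Finset.mem_erase.2 ⟨fun hh => h6 (hh ▸ hy),
          Finset.mem_erase.2 ⟨fun hh => h5 (hh ▸ hy), h1 hy⟩⟩, h3⟩, h4⟩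
      · rintro ⟨⟨h1, h3⟩, h4⟩
        have hb' : b ∉ s := fun hh => (Finset.mem_erase.1 (h1 hh)).1 rfl
        have ha' : a ∉ s := fun hh =>
          (Finset.mem_erase.1 (Finset.mem_of_mem_erase (h1 hh))).1 rfl
        exact ⟨⟨⟨⟨fun y hy => Finset.mem_of_mem_erase (Finset.mem_of_mem_erase (h1 hy)), h3⟩, h4⟩,
          fun hh => ha' ((hsub2 s).1 hh).1⟩, ha', hb'⟩
    rwa [heq] at h1
  · intro s hs
    rw [Finset.mem_filter, mem_Y] at hs ⊢
    obtain ⟨⟨⟨h3, h4, h5⟩, h6⟩, h7⟩ := hs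
    refine ⟨⟨⟨swap_image_subset ha hb h3, h4.image _, Finset.card_image_le.trans h5⟩,
      fun hh => h6 ?_⟩, fun hh => h7 ?_⟩
    · have := Finset.image_subset_image (f := Equiv.swap a b) hh
      rwa [image_swap_swap, swap_fix haJ hbJ] at this
    · rw [hsub2] at hh ⊢
      obtain ⟨h8, h9⟩ := hh
      constructor
      · obtain ⟨y, hy, hya⟩ := Finset.mem_image.1 h9
        have : y = a := by
          have := congrArg (Equiv.swap a b) hya
          simpa using this
        rwa [← this]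
      · obtain ⟨y, hy, hya⟩ := Finset.mem_image.1 h8
        have : y = b := by
          have := congrArg (Equiv.swap a b) hya
          simpa using this
        rwa [← this]
  · intro s hs hh
    rw [Finset.mem_filter] at hs
    exact hs.2 ((hsub2 s).2 hh)

/-- The opening `{x}`. -/
theorem Y_singleton (A : Finset ℕ) (k x : ℕ) : Y A k {x} = G (A.erase x) k := by
  ext s
  rw [mem_Y, mem_G, Finset.singleton_subset_iff]
  constructor
  · rintro ⟨⟨h1, h3⟩, h2⟩
    exact ⟨fun y hy => Finset.mem_erase.2 ⟨fun hh => h2 (hh ▸ hy), h1 hy⟩, h3⟩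
  · rintro ⟨h1, h3⟩
    exact ⟨⟨fun y hy => Finset.mem_of_mem_erase (h1 hy), h3⟩,
      fun hh => (Finset.mem_erase.1 (h1 hh)).1 rfl⟩

/-- The opening `{a, b}`. -/
theorem Y_pair {A : Finset ℕ} {k a b : ℕ} (ha : a ∈ A) (hb : b ∈ A) (hab : a ≠ b) :
    Loses (Y A k {a, b}) ↔ Loses (G ((A.erase a).erase b) k) := by
  have hsub2 : ∀ s : Finset ℕ, {a, b} ⊆ s ↔ a ∈ s ∧ b ∈ s := by
    intro s
    rw [Finset.insert_subset_iff, Finset.singleton_subset_iff]
  rw [star_reduction a b hab _ _ rfl]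
  · have heq : (Y A k {a, b}).filter (fun s => a ∉ s ∧ b ∉ s) = G ((A.erase a).erase b) k := by
      ext s
      rw [Finset.mem_filter, mem_Y, mem_G]
      constructor
      · rintro ⟨⟨⟨h1, h3⟩, h4⟩, h5, h6⟩
        exact ⟨fun y hy => Finset.mem_erase.2 ⟨fun hh => h6 (hh ▸ hy),
          Finset.mem_erase.2 ⟨fun hh => h5 (hh ▸ hy), h1 hy⟩⟩, h3⟩
      · rintro ⟨h1, h3⟩
        have hb' : b ∉ s := fun hh => (Finset.mem_erase.1 (h1 hh)).1 rfl
        have ha' : a ∉ s := fun hh =>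
          (Finset.mem_erase.1 (Finset.mem_of_mem_erase (h1 hh))).1 rfl
        exact ⟨⟨⟨fun y hy => Finset.mem_of_mem_erase (Finset.mem_of_mem_erase (h1 hy)), h3⟩,
          fun hh => ha' ((hsub2 s).1 hh).1⟩, ha', hb'⟩
    rw [heq]
  · intro s hs
    rw [mem_Y] at hs ⊢
    obtain ⟨⟨h3, h4, h5⟩, h7⟩ := hs
    refine ⟨⟨swap_image_subset ha hb h3, h4.image _, Finset.card_image_le.trans h5⟩,
      fun hh => h7 ?_⟩
    rw [hsub2] at hh ⊢
    obtain ⟨h8, h9⟩ := hh
    constructor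
    · obtain ⟨y, hy, hya⟩ := Finset.mem_image.1 h9
      have : y = a := by
        have := congrArg (Equiv.swap a b) hya
        simpa using this
      rwa [← this]
    · obtain ⟨y, hy, hya⟩ := Finset.mem_image.1 h8
      have : y = b := by
        have := congrArg (Equiv.swap a b) hya
        simpa using this
      rwa [← this]
  · intro s hs hh
    rw [mem_Y] at hs
    exact hs.2 ((hsub2 s).2 hh)

/-- Relabelling: the outcome of `Y A k J` depends only on `k` and the numbers of elements. -/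
theorem Y_iso {A A' J J' : Finset ℕ} (k : ℕ) (hJ : J ⊆ A) (hJ' : J' ⊆ A')
    (hA : A.card = A'.card) (hc : J.card = J'.card) :
    Loses (Y A k J) ↔ Loses (Y A' k J') := by
  have hD : (A \ J).card = (A' \ J').card := by
    rw [Finset.card_sdiff_of_subset hJ, Finset.card_sdiff_of_subset hJ', hA, hc]
  let e1 := Finset.equivOfCardEq hc
  let e2 := Finset.equivOfCardEq hD
  let f : ℕ → ℕ := fun x => if h : x ∈ J then (e1 ⟨x, h⟩ : ℕ) else
    if h' : x ∈ A \ J then (e2 ⟨x, h'⟩ : ℕ) else x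
  have f1 : ∀ x (h : x ∈ J), f x = e1 ⟨x, h⟩ := fun x h => by simp [f, h]
  have f2 : ∀ x (h : x ∈ A \ J), f x = e2 ⟨x, h⟩ := fun x h => by
    have h' : x ∉ J := (Finset.mem_sdiff.1 h).2
    simp only [f, dif_neg h', dif_pos h]
  have g1 : ∀ x ∈ J, f x ∈ J' := fun x h => by rw [f1 x h]; exact (e1 ⟨x, h⟩).2
  have g2 : ∀ x ∈ A \ J, f x ∈ A' \ J' := fun x h => by rw [f2 x h]; exact (e2 ⟨x, h⟩).2
  have hinj : ∀ a ∈ A, ∀ b ∈ A, f a = f b → a = b := by
    intro a ha b hb hab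
    by_cases h1 : a ∈ J <;> by_cases h2 : b ∈ J
    · rw [f1 a h1, f1 b h2] at hab
      have := e1.injective (Subtype.ext hab)
      simpa using this
    · exfalso
      have h3 := g1 a h1
      have h4 := g2 b (Finset.mem_sdiff.2 ⟨hb, h2⟩)
      rw [← hab] at h4
      exact (Finset.mem_sdiff.1 h4).2 h3
    · exfalso
      have h3 := g1 b h2
      have h4 := g2 a (Finset.mem_sdiff.2 ⟨ha, h1⟩)
      rw [hab] at h4
      exact (Finset.mem_sdiff.1 h4).2 h3
    · have h1' := Finset.mem_sdiff.2 ⟨ha, h1⟩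
      have h2' := Finset.mem_sdiff.2 ⟨hb, h2⟩
      rw [f2 a h1', f2 b h2'] at hab
      have := e2.injective (Subtype.ext hab)
      simpa using this
  have hmap : ∀ a ∈ A, f a ∈ A' := by
    intro a ha
    by_cases h1 : a ∈ J
    · exact hJ' (g1 a h1)
    · exact (Finset.mem_sdiff.1 (g2 a (Finset.mem_sdiff.2 ⟨ha, h1⟩))).1
  have hsurj : ∀ b ∈ A', ∃ a ∈ A, f a = b := by
    have : A.image f = A' := by
      apply Finset.eq_of_subset_of_card_le
      · intro y hy
        obtain ⟨x, hx, rfl⟩ := Finset.mem_image.1 hy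
        exact hmap x hx
      · rw [Finset.card_image_of_injOn (fun a ha b hb hab => hinj a ha b hb hab), hA]
    intro b hb
    rw [← this] at hb
    obtain ⟨a, ha, hab⟩ := Finset.mem_image.1 hb
    exact ⟨a, ha, hab⟩
  have hsurjJ : ∀ b ∈ J', ∃ a ∈ J, f a = b := by
    have : J.image f = J' := by
      apply Finset.eq_of_subset_of_card_le
      · intro y hy
        obtain ⟨x, hx, rfl⟩ := Finset.mem_image.1 hy
        exact g1 x hx
      · rw [Finset.card_image_of_injOn (fun a ha b hb hab => hinj a (hJ ha) b (hJ hb) hab), hc]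
    intro b hb
    rw [← this] at hb
    obtain ⟨a, ha, hab⟩ := Finset.mem_image.1 hb
    exact ⟨a, ha, hab⟩
  have himg : (Y A k J).image (fun s => s.image f) = Y A' k J' := by
    ext t
    rw [Finset.mem_image]
    constructor
    · rintro ⟨s, hs, rfl⟩
      rw [mem_Y] at hs ⊢
      obtain ⟨⟨h1, h2, h3⟩, h4⟩ := hs
      refine ⟨⟨?_, h2.image _, Finset.card_image_le.trans h3⟩, fun hh => h4 ?_⟩
      · intro y hy
        obtain ⟨x, hx, rfl⟩ := Finset.mem_image.1 hy
        exact hmap x (h1 hx)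
      · intro x hx
        obtain ⟨z, hz, hzx⟩ := Finset.mem_image.1 (hh (g1 x hx))
        rwa [← hinj z (h1 hz) x (hJ hx) hzx]
    · intro ht
      rw [mem_Y] at ht
      obtain ⟨⟨h1, h2, h3⟩, h4⟩ := ht
      have himt : (A.filter (fun x => f x ∈ t)).image f = t := by
        ext y
        rw [Finset.mem_image]
        constructor
        · rintro ⟨x, hx, rfl⟩
          exact (Finset.mem_filter.1 hx).2
        · intro hy
          obtain ⟨x, hx, hxy⟩ := hsurj y (h1 hy)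
          exact ⟨x, Finset.mem_filter.2 ⟨hx, hxy ▸ hy⟩, hxy⟩
      refine ⟨A.filter (fun x => f x ∈ t), ?_, himt⟩
      rw [mem_Y]
      refine ⟨⟨Finset.filter_subset _ _, ?_, ?_⟩, fun hh => h4 ?_⟩
      · rw [← Finset.image_nonempty (f := f), himt]
        exact h2
      · have : (A.filter (fun x => f x ∈ t)).card = t.card := by
          rw [← himt, Finset.card_image_of_injOn]
          · rw [himt]
          · intro a ha b hb hab
            exact hinj a (Finset.mem_filter.1 ha).1 b (Finset.mem_filter.1 hb).1 hab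
        rw [this]
        exact h3
      · intro y hy
        obtain ⟨x, hx, rfl⟩ := hsurjJ y hy
        exact (Finset.mem_filter.1 (hh hx)).2
  rw [← himg]
  exact (loses_image f A hinj _ (Y A k J) rfl (fun s hs => (mem_Y.1 hs).1.1)).symm

end Pool.Agent.Work.MP_1b6add_co
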