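import Pool.Agent.Work.MP_1b6add_co.Fam

set_option autoImplicit false

namespace Pool.Agent.Work.MP_1b6add_co

/-- The player to move loses on `G (range n) k`. -/
def q (n k : ℕ) : Prop := Loses (G (Finset.range n) k)

/-- The player to move loses on `G (range n) k` after the opening `range j`. -/
def p (n k j : ℕ) : Prop := Loses (Y (Finset.range n) k (Finset.range j))

theorem Y_p {A J : Finset ℕ} (k : ℕ) (hJ : J ⊆ A) : Loses (Y A k J) ↔ p A.card k J.card := by
  unfold p
  apply Y_iso k hJ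
  · exact Finset.range_subset_range.2 (Finset.card_le_card hJ)
  · simp
  · simp

theorem p_one (A : Finset ℕ) (k : ℕ) : Loses (G A k) ↔ p (A.card + 1) k 1 := by
  obtain ⟨x, hx⟩ := Infinite.exists_notMem_finset A
  have h1 := Y_singleton (insert x A) k x
  rw [Finset.erase_insert hx] at h1
  rw [← h1, Y_p k (Finset.singleton_subset_iff.2 (Finset.mem_insert_self x A)),
    Finset.card_insert_of_notMem hx, Finset.card_singleton]

theorem G_q (A : Finset ℕ) (k : ℕ) : Loses (G A k) ↔ q A.card k := by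
  rw [p_one]
  unfold q
  rw [p_one, Finset.card_range]

theorem q_p1 (n k : ℕ) : q n k ↔ p (n + 1) k 1 := by
  unfold q
  rw [p_one, Finset.card_range]

theorem q_p2 (n k : ℕ) : q n k ↔ p (n + 2) k 2 := by
  have h1 : (n : ℕ) ∈ Finset.range (n + 2) := by simp
  have h2 : (n + 1 : ℕ) ∈ Finset.range (n + 2) := by simp
  have h3 : n ≠ n + 1 := by omega
  have h4 : ((Finset.range (n + 2)).erase n).erase (n + 1) = Finset.range n := by
    ext x
    simp only [Finset.mem_erase, Finset.mem_range]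
    omega
  have h5 := Y_pair (k := k) h1 h2 h3
  rw [h4] at h5
  unfold q
  rw [← h5, Y_p k, Finset.card_range, Finset.card_pair h3]
  intro y hy
  rw [Finset.mem_insert, Finset.mem_singleton] at hy
  rcases hy with rfl | rfl
  · exact h1
  · exact h2

theorem q_iff (n k : ℕ) : q n k ↔ ∀ j, 1 ≤ j → j ≤ n → j ≤ k → ¬ p n k j := by
  unfold q
  rw [loses_G_iff]
  constructor
  · intro h j h1 h2 h3
    have := h (Finset.range j) (Finset.range_subset_range.2 h2)
      ⟨0, Finset.mem_range.2 (by omega)⟩ (by simpa using h3)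
    exact this
  · intro h J h1 h2 h3
    rw [Y_p k h1, Finset.card_range]
    apply h _ (Finset.card_pos.2 h2) _ h3
    simpa using Finset.card_le_card h1

theorem p_uniq (n k i j : ℕ) (h1 : 1 ≤ i) (hij : i < j) (hjn : j ≤ n) (hjk : j ≤ k)
    (h : p n k j) : ¬ p n k i := by
  unfold p at h ⊢
  apply sub_step (Finset.range_subset_range.2 hjn) (by simpa using hjk) _ ⟨0, Finset.mem_range.2 (by omega)⟩ h
  rw [Finset.ssubset_iff_subset_ne]
  refine ⟨Finset.range_subset_range.2 hij.le, fun hh => ?_⟩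
  have := congrArg Finset.card hh
  simp at this
  omega

theorem p_succ (n k j : ℕ) (h1 : 1 ≤ j) (hjn : j ≤ n) (hk : 1 ≤ k)
    (h : p (n + 1) k j) : ¬ p n k j := by
  unfold p at h ⊢
  have := vertex_step (A := Finset.range (n + 1)) (J := Finset.range j) (x := n)
    (by simp) (by simpa using hjn) ⟨0, Finset.mem_range.2 (by omega)⟩ hk h
  have heq : (Finset.range (n + 1)).erase n = Finset.range n := by
    ext x
    simp only [Finset.mem_erase, Finset.mem_range]
    omega
  rwa [heq] at this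

theorem p_succ2 (n k j : ℕ) (h1 : 1 ≤ j) (hjn : j ≤ n) (hk : 2 ≤ k)
    (h : p (n + 2) k j) : ¬ p n k j := by
  unfold p at h ⊢
  have := pair_step (A := Finset.range (n + 2)) (J := Finset.range j) (a := n) (b := n + 1)
    (by simp) (by simp) (by omega) (by simpa using hjn) (by simp; omega) ⟨0, Finset.mem_range.2 (by omega)⟩
    hk h
  have heq : ((Finset.range (n + 2)).erase n).erase (n + 1) = Finset.range n := by
    ext x
    simp only [Finset.mem_erase, Finset.mem_range]
    omega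
  rwa [heq] at this

theorem p_full (n k j : ℕ) (h : n ≤ k) : p n k j ↔ p n n j := by
  unfold p
  have : Y (Finset.range n) k (Finset.range j) = Y (Finset.range n) n (Finset.range j) := by
    ext s
    rw [mem_Y, mem_Y]
    constructor
    · rintro ⟨⟨h1, h2, -⟩, h3⟩
      exact ⟨⟨h1, h2, by simpa using Finset.card_le_card h1⟩, h3⟩
    · rintro ⟨⟨h1, h2, h4⟩, h3⟩
      exact ⟨⟨h1, h2, h4.trans h⟩, h3⟩
  rw [this]

theorem q_full (n k : ℕ) (h : n ≤ k) : q n k ↔ q n n := by
  unfold q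
  have : G (Finset.range n) k = G (Finset.range n) n := by
    ext s
    rw [mem_G, mem_G]
    constructor
    · rintro ⟨h1, h2, -⟩
      exact ⟨h1, h2, by simpa using Finset.card_le_card h1⟩
    · rintro ⟨h1, h2, h4⟩
      exact ⟨h1, h2, h4.trans h⟩
  rw [this]

/-- Strategy stealing. -/
theorem not_q_self (n : ℕ) (hn : 1 ≤ n) : ¬ q n n := by
  intro hq
  have h1 := (q_iff n n).1 hq n hn le_rfl le_rfl
  unfold p at h1
  rw [loses_iff] at h1
  push Not at h1
  obtain ⟨x, hx, hl⟩ := h1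
  rw [mem_Y] at hx
  have heq : (Y (Finset.range n) n (Finset.range n)).filter (fun s => ¬ x ⊆ s)
      = Y (Finset.range n) n x := by
    ext s
    rw [Finset.mem_filter, mem_Y, mem_Y]
    constructor
    · rintro ⟨⟨h1, -⟩, h2⟩
      exact ⟨h1, h2⟩
    · rintro ⟨h1, h2⟩
      exact ⟨⟨h1, fun h' => h2 (hx.1.1.trans h')⟩, h2⟩
  rw [heq] at hl
  unfold q at hq
  rw [loses_G_iff] at hq
  exact hq x hx.1.1 hx.1.2.1 hx.1.2.2 hl

theorem not_p_succ_full (n j : ℕ) (h1 : 1 ≤ j) (hjn : j ≤ n) (h : p n n j) :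
    ¬ p (n + 1) (n + 1) j := by
  intro h'
  apply p_succ n (n + 1) j h1 hjn (by omega) h'
  rwa [p_full n (n + 1) j (by omega)]

theorem not_p_succ2_full (n j : ℕ) (h1 : 1 ≤ j) (hjn : j ≤ n) (h : p n n j) :
    ¬ p (n + 2) (n + 2) j := by
  intro h'
  apply p_succ2 n (n + 2) j h1 hjn (by omega) h'
  rwa [p_full n (n + 2) j (by omega)]

theorem exists_j (n : ℕ) (hn : 1 ≤ n) : ∃ j, 1 ≤ j ∧ j ≤ n ∧ p n n j := by
  by_contra h
  push Not at h
  exact not_q_self n hn ((q_iff n n).2 (fun j h1 h2 _ => h j h1 h2))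

theorem three_le (n j : ℕ) (hn : 3 ≤ n) (h1 : 1 ≤ j) (h : p n n j) : 3 ≤ j := by
  by_contra hj
  push Not at hj
  interval_cases j
  · obtain ⟨m, rfl⟩ : ∃ m, n = m + 1 := ⟨n - 1, by omega⟩
    rw [← q_p1, q_full m (m + 1) (by omega)] at h
    exact not_q_self m (by omega) h
  · obtain ⟨m, rfl⟩ : ∃ m, n = m + 2 := ⟨n - 2, by omega⟩
    rw [← q_p2, q_full m (m + 2) (by omega)] at h
    exact not_q_self m (by omega) h

/-- Second-player wins are at distance at least three. -/
theorem q_gap (n k : ℕ) (hk : 2 ≤ k) (h : q n k) : ¬ q (n + 1) k ∧ ¬ q (n + 2) k := by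
  constructor
  · intro h'
    exact (q_iff _ _).1 h' 1 le_rfl (by omega) (by omega) ((q_p1 n k).1 h)
  · intro h'
    exact (q_iff _ _).1 h' 2 (by omega) (by omega) hk ((q_p2 n k).1 h)

/-- If `n`, `n + 1`, `n + 2` are all first-player wins, some opening of size at least three wins
for `n + 2`. -/
theorem exists_big (n k : ℕ) (h0 : ¬ q n k) (h1 : ¬ q (n + 1) k) (h2 : ¬ q (n + 2) k) :
    ∃ j, 3 ≤ j ∧ j ≤ n + 2 ∧ j ≤ k ∧ p (n + 2) k j := by
  rw [q_iff (n + 2) k] at h2
  push Not at h2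
  obtain ⟨j, hj1, hj2, hj3, hj⟩ := h2
  refine ⟨j, ?_, hj2, hj3, hj⟩
  by_contra hlt
  push Not at hlt
  interval_cases j
  · rw [show n + 2 = (n + 1) + 1 from rfl, ← q_p1] at hj
    exact h1 hj
  · rw [← q_p2] at hj
    exact h0 hj

theorem gap34 (k : ℕ) (hk : k = 3 ∨ k = 4) (n : ℕ) (h : q n k) :
    ∃ i, 3 ≤ i ∧ i ≤ k + 1 ∧ q (n + i) k := by
  have hk2 : 2 ≤ k := by omega
  obtain ⟨g1, g2⟩ := q_gap n k hk2 h
  by_cases g3 : q (n + 3) k
  · exact ⟨3, le_rfl, by omega, g3⟩
  by_cases g4 : q (n + 4) k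
  · exact ⟨4, by omega, by omega, g4⟩
  obtain ⟨a, ha3, han, hak, ha⟩ := exists_big (n + 1) k g1 g2 g3
  obtain ⟨b, hb3, hbn, hbk, hb⟩ := exists_big (n + 2) k g2 g3 g4
  have hab : a ≠ b := by
    rintro rfl
    exact p_succ (n + 3) k a (by omega) (by omega) (by omega) hb ha
  rcases hk with rfl | rfl
  · omega
  · by_cases g5 : q (n + 5) 4
    · exact ⟨5, by omega, by omega, g5⟩
    obtain ⟨c, hc3, hcn, hck, hc⟩ := exists_big (n + 3) 4 g3 g4 g5
    have hbc : b ≠ c := by
      rintro rfl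
      exact p_succ (n + 4) 4 b (by omega) (by omega) (by omega) hc hb
    have hac : a ≠ c := by
      rintro rfl
      exact p_succ2 (n + 3) 4 a (by omega) (by omega) (by omega) hc ha
    omega

end Pool.Agent.Work.MP_1b6add_co
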